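import Pool.Agent.Lib.MP_67d80e_pr_g3.Ct5.D

/-!
Certificate in dimension 5: checks, part 4.
-/

set_option autoImplicit false

namespace Pool.Agent.Lib.MP_67d80e_pr_g3.Ct5

theorem cn3 : D.cN 3 = true := by decide +kernel

theorem ce3 : D.cE 3 = true := by decide +kernel

theorem cb3 : D.cB 3 = true := by decide +kernel

theorem cd3_0 : fa 6 21 (fun i => D.cDi 3 i) = true := by decide +kernel

theorem cs4 : D.cS 4 = true := by decide +kernel

theorem cc4 : D.cC 4 = true := by decide +kernel

theorem cn4 : D.cN 4 = true := by decide +kernel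

theorem ce4 : D.cE 4 = true := by decide +kernel

theorem cb4 : D.cB 4 = true := by decide +kernel


end Pool.Agent.Lib.MP_67d80e_pr_g3.Ct5
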