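import Pool.Agent.Lib.MP_67d80e_pr_g3.Ct5.D

/-!
Certificate in dimension 5: checks, part 5.
-/

set_option autoImplicit false

namespace Pool.Agent.Lib.MP_67d80e_pr_g3.Ct5

theorem cd4_0 : fa 7 21 (fun i => D.cDi 4 i) = true := by decide +kernel

theorem cs5 : D.cS 5 = true := by decide +kernel

theorem cc5 : D.cC 5 = true := by decide +kernel

theorem cn5 : D.cN 5 = true := by decide +kernel

theorem ce5 : D.cE 5 = true := by decide +kernel

theorem cb5 : D.cB 5 = true := by decide +kernel

theorem cd5_0 : fa 8 21 (fun i => D.cDi 5 i) = true := by decide +kernel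

theorem cs6 : D.cS 6 = true := by decide +kernel

theorem cc6 : D.cC 6 = true := by decide +kernel

theorem cn6 : D.cN 6 = true := by decide +kernel

theorem ce6 : D.cE 6 = true := by decide +kernel

theorem cb6 : D.cB 6 = true := by decide +kernel


end Pool.Agent.Lib.MP_67d80e_pr_g3.Ct5
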