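import Pool.Agent.Lib.MP_67d80e_pr_g3.Ct5.D

/-!
Certificate in dimension 5: checks, part 6.
-/

set_option autoImplicit false

namespace Pool.Agent.Lib.MP_67d80e_pr_g3.Ct5

theorem cd6_0 : fa 9 21 (fun i => D.cDi 6 i) = true := by decide +kernel

theorem cs7 : D.cS 7 = true := by decide +kernel

theorem cc7 : D.cC 7 = true := by decide +kernel

theorem cn7 : D.cN 7 = true := by decide +kernel

theorem ce7 : D.cE 7 = true := by decide +kernel

theorem cb7 : D.cB 7 = true := by decide +kernel

theorem cd7_0 : fa 10 21 (fun i => D.cDi 7 i) = true := by decide +kernel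

theorem cs8 : D.cS 8 = true := by decide +kernel

theorem cc8 : D.cC 8 = true := by decide +kernel

theorem cn8 : D.cN 8 = true := by decide +kernel

theorem ce8 : D.cE 8 = true := by decide +kernel

theorem cb8 : D.cB 8 = true := by decide +kernel

theorem cd8_0 : fa 10 21 (fun i => D.cDi 8 i) = true := by decide +kernel

theorem cs9 : D.cS 9 = true := by decide +kernel

theorem cc9 : D.cC 9 = true := by decide +kernel

theorem cn9 : D.cN 9 = true := by decide +kernel

theorem ce9 : D.cE 9 = true := by decide +kernel

theorem cb9 : D.cB 9 = true := by decide +kernel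


end Pool.Agent.Lib.MP_67d80e_pr_g3.Ct5
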